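import Pool.Agent.Helper42.TN.GoalsA
import Pool.Agent.Helper50.VN.BRNB

/-!
Packet TN-BRNN (MP_a41896_nt, project TN): size of the bracket.
-/

set_option autoImplicit false

open MvPolynomial

namespace Pool.Agent.Helper49.TN

open WeierstrassCurve Height
open Pool.Agent.Helper29.BL Pool.Agent.Helper92.Ru Pool.Agent.Helper42.SG
open Pool.Agent.Helper76.SGC (NFB)
open Pool.Agent.Helper77.SGC (N0)
open Pool.Agent.Helper68.VN
open Pool.Agent.Helper50.VN.BRNB (frK cst_prod v_pow_le block)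

theorem t_BRNN : Pool.Agent.Helper42.TN.BRNN := by
  intro K _ _ σ _ _ W B D n M hB e G S T _ r hG hS hC cc x0 v s hs0 hs lam μ t
  have hNFB : NFB := Pool.Agent.Helper35.SGC1.nfb
  obtain ⟨h00, h11, hpow, hprod, hsum⟩ := hNFB K v K (fun f T => v f ≤ T) (frK K v)
  set Tb : Fin n → ℝ := fun j =>
    cst v (((2 * M + 1 : ℝ) * (N0 M (e j) + 1)) ^ Fintype.card σ) *
        ((G j v ^ (N0 M (e j) + 1) * B v ^ (4 ^ e j * (M + 1) * Fintype.card σ)) *
          ∏ i, Mv v (x0 i) ^ (2 * M - 2 * (μ j i).val)) with hTb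
  have hblk : ∀ (α : Ix σ n M 1 e) (j : Fin n),
      v (∑ g ∈ box σ (2 * M), Gam S M (e j) (r j (t j)) (lam j) (μ j) g (α.1 j) *
        ∏ i, x0 i ^ g i) ≤ Tb j := fun α j =>
    block hNFB W B D v (hB v) (G j v) (hG j v) M (e j) (N0 M (e j)) rfl S hS (r j (t j))
      (fun s => hC j v (t j) s) (lam j) (μ j) (α.1 j) x0
  have hT0 : ∀ j, 0 ≤ Tb j := by
    intro j
    have h1 : (0 : ℝ) ≤ M := Nat.cast_nonneg _
    have h2 : (0 : ℝ) ≤ (N0 M (e j) : ℝ) := Nat.cast_nonneg _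
    have h3 : (1 : ℝ) ≤ (2 * M + 1 : ℝ) * (N0 M (e j) + 1) := by nlinarith
    refine mul_nonneg (cst_pos v (one_le_pow₀ h3)).le (mul_nonneg (mul_nonneg
      (pow_nonneg (zero_le_one.trans (hG j v)) _) (pow_nonneg (zero_le_one.trans (hB v)) _)) ?_)
    exact Finset.prod_nonneg fun i _ => pow_nonneg (zero_le_one.trans (one_le_Mv v (x0 i))) _
  have hall : ∀ α : Ix σ n M 1 e, v (cc α *
      (∏ j, ∑ g ∈ box σ (2 * M), Gam S M (e j) (r j (t j)) (lam j) (μ j) g (α.1 j) *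
        ∏ i, x0 i ^ g i) * ∏ i, x0 i ^ (α.2 i).val) ≤
      s * (∏ j, Tb j) * ∏ i, Mv v (x0 i) ^ 1 := by
    intro α
    rw [v.map_mul, v.map_mul]
    refine mul_le_mul (mul_le_mul (hs α) ?_ (v.nonneg _) hs0) ?_ (v.nonneg _)
      (mul_nonneg hs0 (Finset.prod_nonneg fun j _ => hT0 j))
    · exact hprod (Fin n) Finset.univ _ _ fun j _ => hblk α j
    · rw [map_prod]
      apply Finset.prod_le_prod
      · intro i _
        exact v.nonneg _
      · intro i _
        rw [v.map_pow]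
        exact v_pow_le v _ _ _ (α.2 i).isLt.le
  have hfin := hsum (Ix σ n M 1 e) Finset.univ _ _ (mul_nonneg (mul_nonneg hs0
    (Finset.prod_nonneg fun j _ => hT0 j)) (Finset.prod_nonneg fun i _ =>
      pow_nonneg (zero_le_one.trans (one_le_Mv v (x0 i))) 1)) fun α _ => hall α
  unfold BrB
  refine le_trans hfin (le_of_eq ?_)
  rw [Finset.card_univ, ← Nat.card_eq_fintype_card, cst_mul, cst_prod, hTb]
  simp only [Finset.prod_mul_distrib]
  ring

end Pool.Agent.Helper49.TN
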